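import Mathlib
import Pool.Agent.Lib.MP_166ce5_al.Lamp

/-!
An infinite, finitely generated, residually finite `2`-group of exponential word growth whose period
growth is `O(√n)`, for every finite generating set. The group is the restricted wreath product of the
group of order two with an infinite finitely generated residually finite `2`-group of automorphisms
of a rooted tree whose period growth is `O(√n)`.
-/

set_option autoImplicit false

namespace Pool.Agent.Results.MP_166ce5_al.SqrtPeriodGrowth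

open Filter Topology

/-- The word length `|g|_S`: the least length of a word in the letters `S ∪ S⁻¹` with value `g`. -/
noncomputable def wordLength {G : Type} [Group G] (S : Finset G) (g : G) : ℕ :=
  sInf {n : ℕ | ∃ l : List G, l.length = n ∧ (∀ x ∈ l, x ∈ S ∨ x⁻¹ ∈ S) ∧ l.prod = g}

/-- The ball `B_S(n)`. -/
def ball {G : Type} [Group G] (S : Finset G) (n : ℕ) : Set G := {g : G | wordLength S g ≤ n}

/-- The word growth `γ_S(n) = |B_S(n)|`. -/
noncomputable def wordGrowth {G : Type} [Group G] (S : Finset G) (n : ℕ) : ℕ := (ball S n).ncard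

/-- The period growth `π_S(n) = max {ord(g) : g ∈ B_S(n)}`. -/
noncomputable def periodGrowth {G : Type} [Group G] (S : Finset G) (n : ℕ) : ℕ :=
  sSup (orderOf '' ball S n)

/-- The intersection of the normal subgroups of finite index is trivial. -/
def ResiduallyFinite (G : Type) [Group G] : Prop :=
  ∀ g : G, (∀ N : Subgroup G, N.Normal → N.FiniteIndex → g ∈ N) → g = 1

/-- Elements which are values of words of length at most `n` -/
def wb {G : Type} [Group G] (S : Finset G) (n : ℕ) : Set G :=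
  {g : G | ∃ l : List G, l.length ≤ n ∧ (∀ x ∈ l, x ∈ S ∨ x⁻¹ ∈ S) ∧ l.prod = g}

section General

variable {G : Type} [Group G] {S T : Finset G}

theorem exists_word (hS : Subgroup.closure (S : Set G) = ⊤) (g : G) :
    ∃ l : List G, (∀ x ∈ l, x ∈ S ∨ x⁻¹ ∈ S) ∧ l.prod = g := by
  have h : g ∈ Subgroup.closure (S : Set G) := by rw [hS]; trivial
  have h' : g ∈ Submonoid.closure ((S : Set G) ∪ (S : Set G)⁻¹) := by
    rw [← Subgroup.closure_toSubmonoid]
    exact h
  obtain ⟨l, h1, h2⟩ := Submonoid.exists_list_of_mem_closure h'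
  refine ⟨l, fun x hx => ?_, h2⟩
  rcases h1 x hx with h3 | h3
  · exact Or.inl h3
  · exact Or.inr (Set.mem_inv.1 h3)

theorem ball_eq (hS : Subgroup.closure (S : Set G) = ⊤) (n : ℕ) : ball S n = wb S n := by
  ext g
  constructor
  · intro h
    obtain ⟨l, h1, h2⟩ := exists_word hS g
    obtain ⟨l', h3, h4, h5⟩ := Nat.sInf_mem
      (s := {n : ℕ | ∃ l : List G, l.length = n ∧ (∀ x ∈ l, x ∈ S ∨ x⁻¹ ∈ S) ∧ l.prod = g})
      ⟨l.length, l, rfl, h1, h2⟩
    exact ⟨l', h3.le.trans h, h4, h5⟩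
  · rintro ⟨l, h1, h2, h3⟩
    have h4 : wordLength S g ≤ l.length := Nat.sInf_le ⟨l, rfl, h2, h3⟩
    exact h4.trans h1

theorem wb_mono {m n : ℕ} (h : m ≤ n) : wb S m ⊆ wb S n := by
  rintro g ⟨l, h1, h2, h3⟩
  exact ⟨l, h1.trans h, h2, h3⟩

theorem one_mem (n : ℕ) : (1 : G) ∈ wb S n := ⟨[], by simp, by simp, rfl⟩

theorem mul_mem {m n : ℕ} {g h : G} (hg : g ∈ wb S m) (hh : h ∈ wb S n) : g * h ∈ wb S (m + n) := by
  obtain ⟨l, h1, h2, rfl⟩ := hg
  obtain ⟨l', h1', h2', rfl⟩ := hh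
  refine ⟨l ++ l', by simp; omega, fun x hx => ?_, by simp⟩
  rcases List.mem_append.1 hx with h | h
  · exact h2 x h
  · exact h2' x h

theorem inv_mem {n : ℕ} {g : G} (hg : g ∈ wb S n) : g⁻¹ ∈ wb S n := by
  obtain ⟨l, h1, h2, rfl⟩ := hg
  refine ⟨(l.map (·⁻¹)).reverse, by simpa using h1, fun x hx => ?_, by rw [List.prod_inv_reverse]⟩
  rw [List.mem_reverse, List.mem_map] at hx
  obtain ⟨y, hy, rfl⟩ := hx
  rcases h2 y hy with h | h
  · exact Or.inr (by rwa [inv_inv])
  · exact Or.inl h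

theorem wb_add (m n : ℕ) : wb S (m + n) ⊆ (fun p : G × G => p.1 * p.2) '' (wb S m ×ˢ wb S n) := by
  rintro g ⟨l, h1, h2, rfl⟩
  refine ⟨((l.take m).prod, (l.drop m).prod),
    ⟨⟨l.take m, by simp, fun x hx => h2 x (List.mem_of_mem_take hx), rfl⟩,
      ⟨l.drop m, by simp; omega, fun x hx => h2 x (List.mem_of_mem_drop hx), rfl⟩⟩, ?_⟩
  change (l.take m).prod * (l.drop m).prod = l.prod
  rw [← List.prod_append, List.take_append_drop]

theorem wb_finite (n : ℕ) : (wb S n).Finite := by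
  induction n with
  | zero =>
    refine (Set.finite_singleton (1 : G)).subset ?_
    rintro g ⟨l, h1, -, rfl⟩
    have : l = [] := List.length_eq_zero_iff.1 (by omega)
    simp [this]
  | succ n ih =>
    have h1 : (wb S 1).Finite := by
      refine (((Set.finite_singleton (1 : G)).union (S.finite_toSet)).union
        (S.finite_toSet.image (·⁻¹))).subset ?_
      rintro g ⟨l, h1, h2, rfl⟩
      rcases l with _ | ⟨x, l⟩
      · exact Or.inl (Or.inl rfl)
      · have : l = [] := List.length_eq_zero_iff.1 (by simpa using h1)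
        subst this
        rcases h2 x (by simp) with h | h
        · exact Or.inl (Or.inr (by simpa using h))
        · exact Or.inr ⟨x⁻¹, h, by simp⟩
    exact ((ih.prod h1).image _).subset (wb_add n 1)

theorem card_add (m n : ℕ) : (wb S (m + n)).ncard ≤ (wb S m).ncard * (wb S n).ncard := by
  have h := ((wb_finite (S := S) m).prod (wb_finite (S := S) n))
  refine (Set.ncard_le_ncard (wb_add m n) (h.image _)).trans ((Set.ncard_image_le h).trans ?_)
  rw [Set.ncard_prod]

theorem card_pos (n : ℕ) : 0 < (wb S n).ncard :=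
  (Set.ncard_pos (wb_finite n)).2 ⟨1, one_mem n⟩

/-- comparison of two generating sets -/
theorem compare (hT : Subgroup.closure (T : Set G) = ⊤) (S : Finset G) :
    ∃ M : ℕ, 1 ≤ M ∧ ∀ n, wb S n ⊆ wb T (M * n) := by
  classical
  have h1 : ∀ s : G, ∃ m, s ∈ wb T m := by
    intro s
    obtain ⟨l, h2, h3⟩ := exists_word hT s
    exact ⟨l.length, l, le_rfl, h2, h3⟩
  choose f hf using h1
  refine ⟨S.sup f + 1, by omega, fun n => ?_⟩
  rintro g ⟨l, h2, h3, rfl⟩
  have h4 : ∀ l : List G, (∀ x ∈ l, x ∈ S ∨ x⁻¹ ∈ S) → l.prod ∈ wb T ((S.sup f + 1) * l.length) := by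
    intro l
    induction l with
    | nil => intro _; exact one_mem _
    | cons x l ih =>
      intro hx
      have h5 : x ∈ wb T (S.sup f + 1) := by
        rcases hx x (by simp) with h | h
        · exact wb_mono (by have := Finset.le_sup (f := f) h; omega) (hf x)
        · have h6 := inv_mem (wb_mono (by have := Finset.le_sup (f := f) h; omega) (hf x⁻¹) :
            x⁻¹ ∈ wb T (S.sup f + 1))
          rwa [inv_inv] at h6
      have h6 := mul_mem h5 (ih fun y hy => hx y (by simp [hy]))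
      rw [List.prod_cons, List.length_cons, mul_add, mul_one, add_comm]
      exact h6
  exact wb_mono (Nat.mul_le_mul_left _ h2) (h4 l h3)

theorem subadd : Subadditive (fun n => Real.log ((wb S n).ncard : ℝ)) := by
  intro m n
  have h1 : (0 : ℝ) < ((wb S m).ncard : ℝ) := by exact_mod_cast card_pos m
  have h2 : (0 : ℝ) < ((wb S n).ncard : ℝ) := by exact_mod_cast card_pos n
  have h3 : (0 : ℝ) < ((wb S (m + n)).ncard : ℝ) := by exact_mod_cast card_pos (m + n)
  rw [← Real.log_mul h1.ne' h2.ne']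
  apply Real.log_le_log h3
  exact_mod_cast card_add m n

theorem log_nonneg (n : ℕ) : 0 ≤ Real.log ((wb S n).ncard : ℝ) := by
  apply Real.log_nonneg
  exact_mod_cast card_pos n

theorem exists_limit : ∃ u : ℝ,
    Tendsto (fun n : ℕ => Real.log ((wb S n).ncard : ℝ) / n) atTop (𝓝 u) := by
  refine ⟨_, (subadd (S := S)).tendsto_lim ⟨0, ?_⟩⟩
  rintro _ ⟨n, rfl⟩
  exact div_nonneg (log_nonneg n) (Nat.cast_nonneg n)

theorem root_eq (n : ℕ) : ((wb S n).ncard : ℝ) ^ (1 / (n : ℝ)) =
    Real.exp (Real.log ((wb S n).ncard : ℝ) / n) := by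
  have h2 : (0 : ℝ) < ((wb S n).ncard : ℝ) := by exact_mod_cast card_pos n
  rw [Real.rpow_def_of_pos h2]
  congr 1
  ring

/-- exponential growth for one generating set implies it for every other one -/
theorem growth (hT : Subgroup.closure (T : Set G) = ⊤) (c : ℝ) (hc : 1 < c)
    (h : ∀ n : ℕ, c ^ n ≤ ((wb S n).ncard : ℝ)) :
    ∃ L : ℝ, 1 < L ∧ Tendsto (fun n : ℕ => ((wb T n).ncard : ℝ) ^ (1 / (n : ℝ))) atTop (𝓝 L) := by
  obtain ⟨M, hM, hsub⟩ := compare hT S
  obtain ⟨u, hu⟩ := exists_limit (S := T)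
  have hM0 : (0 : ℝ) < M := by
    have : (1 : ℝ) ≤ M := by exact_mod_cast hM
    linarith
  have hlow : Real.log c / M ≤ u := by
    have h1 : Tendsto (fun k : ℕ => M * k) atTop atTop :=
      tendsto_id.const_mul_atTop' (by omega)
    refine ge_of_tendsto (hu.comp h1) (eventually_atTop.2 ⟨1, fun k hk => ?_⟩)
    have hk0 : (0 : ℝ) < k := by
      have : (1 : ℝ) ≤ k := by exact_mod_cast hk
      linarith
    have h2 : Real.log (c ^ k) ≤ Real.log ((wb T (M * k)).ncard : ℝ) := by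
      apply Real.log_le_log (by positivity)
      refine (h k).trans ?_
      exact_mod_cast Set.ncard_le_ncard (hsub k) (wb_finite _)
    rw [Real.log_pow] at h2
    simp only [Function.comp]
    rw [div_le_div_iff₀ hM0 (by push_cast; positivity)]
    push_cast
    calc Real.log c * (M * k) = (k * Real.log c) * M := by ring
      _ ≤ Real.log ((wb T (M * k)).ncard : ℝ) * M := mul_le_mul_of_nonneg_right h2 hM0.le
  refine ⟨Real.exp u, ?_, ?_⟩
  · have h1 : 0 < Real.log c / M := div_pos (Real.log_pos hc) hM0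
    exact Real.one_lt_exp_iff.2 (lt_of_lt_of_le h1 hlow)
  · have h1 := (Real.continuous_exp.tendsto u).comp hu
    refine h1.congr fun n => ?_
    rw [Function.comp_apply, root_eq]

end General

open Pool.Agent.Lib.MP_166ce5_al in
theorem order_bound (n : ℕ) (hn : 1 ≤ n) (g : GG) (hg : g ∈ wb SS n) :
    (orderOf g : ℝ) ≤ 48 * Real.sqrt n := by
  obtain ⟨w, hw, rfl⟩ := (mem_ball n g).mp hg
  obtain ⟨k, hk1, hk2⟩ := exists_clog n
  have h1 : orderOf (eg w) ≤ 4 * 2 ^ k * 2 :=
    Nat.le_of_dvd (by positivity) (orderOf_dvd_of_pow_eq_one (eg_pow w n k hw hk1))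
  have h2 : (orderOf (eg w) : ℝ) ≤ 8 * 2 ^ k := by
    have : orderOf (eg w) ≤ 8 * 2 ^ k := by omega
    exact_mod_cast this
  refine le_trans h2 ?_
  have hN : N 0 = 8 := by simp [N, D]
  have h3 : (4 : ℝ) ^ k ≤ 36 * n := by
    have : 4 ^ k ≤ 36 * n := by omega
    exact_mod_cast this
  have h4 : (2 : ℝ) ^ k = Real.sqrt (4 ^ k) := by
    rw [show (4 : ℝ) = 2 ^ 2 by norm_num, ← pow_mul, mul_comm 2 k, pow_mul,
      Real.sqrt_sq (by positivity)]
  have h5 : Real.sqrt (36 * n) = 6 * Real.sqrt n := by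
    rw [Real.sqrt_mul (by norm_num), show (36 : ℝ) = 6 ^ 2 by norm_num, Real.sqrt_sq (by norm_num)]
  rw [h4]
  calc 8 * Real.sqrt (4 ^ k) ≤ 8 * Real.sqrt (36 * n) :=
        mul_le_mul_of_nonneg_left (Real.sqrt_le_sqrt h3) (by norm_num)
    _ = 48 * Real.sqrt n := by rw [h5]; ring

open Pool.Agent.Lib.MP_166ce5_al in
theorem two_pow (g : GG) : ∃ k : ℕ, orderOf g = 2 ^ k := by
  obtain ⟨w, rfl⟩ := Pool.Agent.Lib.MP_166ce5_al.exists_word g
  obtain ⟨k, hk, _⟩ := exists_clog w.length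
  have h1 := orderOf_dvd_of_pow_eq_one (eg_pow w _ k le_rfl hk)
  have h2 : 4 * 2 ^ k * 2 = 2 ^ (k + 3) := by ring
  rw [h2] at h1
  obtain ⟨j, -, hj⟩ := (Nat.dvd_prime_pow Nat.prime_two).1 h1
  exact ⟨j, hj⟩

theorem period_le {G : Type} [Group G] {T : Finset G} (hT : Subgroup.closure (T : Set G) = ⊤)
    (n : ℕ) (B : ℝ) (hB : ∀ g ∈ wb T n, (orderOf g : ℝ) ≤ B) : (periodGrowth T n : ℝ) ≤ B := by
  have hne : (orderOf '' ball T n).Nonempty := by
    rw [ball_eq hT]
    exact ⟨_, 1, one_mem n, rfl⟩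
  have hbdd : BddAbove (orderOf '' ball T n) := by
    rw [ball_eq hT]
    exact ((wb_finite n).image _).bddAbove
  obtain ⟨g, hg, he⟩ := Nat.sSup_mem hne hbdd
  rw [ball_eq hT] at hg
  have h1 := hB g hg
  rw [he] at h1
  exact h1

theorem tendsto_of_sqrt (f : ℕ → ℕ) (C : ℝ) (h : ∀ n : ℕ, 1 ≤ n → (f n : ℝ) ≤ C * Real.sqrt n) :
    Tendsto (fun n : ℕ => (f n : ℝ) / n) atTop (𝓝 0) := by
  have h1 : Tendsto (fun n : ℕ => C / Real.sqrt n) atTop (𝓝 0) :=
    (Real.tendsto_sqrt_atTop.comp tendsto_natCast_atTop_atTop).const_div_atTop C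
  refine tendsto_of_tendsto_of_tendsto_of_le_of_le' tendsto_const_nhds h1
    (Eventually.of_forall fun n => by positivity) (eventually_atTop.2 ⟨1, fun n hn => ?_⟩)
  have hn0 : (0 : ℝ) < n := by
    have : (1 : ℝ) ≤ n := by exact_mod_cast hn
    linarith
  have hs : 0 < Real.sqrt n := Real.sqrt_pos.2 hn0
  rw [div_le_div_iff₀ hn0 hs]
  calc (f n : ℝ) * Real.sqrt n ≤ (C * Real.sqrt n) * Real.sqrt n :=
        mul_le_mul_of_nonneg_right (h n hn) hs.le
    _ = C * n := by rw [mul_assoc, Real.mul_self_sqrt hn0.le]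

open Pool.Agent.Lib.MP_166ce5_al in
/-- There is an infinite, finitely generated, residually finite group in which every element has
order a power of two, of exponential word growth and period growth `O(√n)` for every finite
generating set; for one of them `γ(n) ≥ (7/5)^n` and `π(n) ≤ 48 √n`. -/
theorem result : ∃ (G : Type) (_ : Group G),
    Infinite G ∧ ResiduallyFinite G ∧ (∀ g : G, ∃ k : ℕ, orderOf g = 2 ^ k) ∧
    (∃ S : Finset G, Subgroup.closure (S : Set G) = ⊤ ∧
      (∀ n : ℕ, (7 / 5 : ℝ) ^ n ≤ (wordGrowth S n : ℝ)) ∧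
      ∀ n : ℕ, 1 ≤ n → (periodGrowth S n : ℝ) ≤ 48 * Real.sqrt n) ∧
    ∀ T : Finset G, Subgroup.closure (T : Set G) = ⊤ →
      (∃ L : ℝ, 1 < L ∧
        Tendsto (fun n : ℕ => (wordGrowth T n : ℝ) ^ (1 / (n : ℝ))) atTop (𝓝 L)) ∧
      (∃ C : ℝ, ∀ n : ℕ, 1 ≤ n → (periodGrowth T n : ℝ) ≤ C * Real.sqrt n) ∧
      Tendsto (fun n : ℕ => (periodGrowth T n : ℝ) / n) atTop (𝓝 0) := by
  have hgr : ∀ n : ℕ, (7 / 5 : ℝ) ^ n ≤ ((wb SS n).ncard : ℝ) := fun n => ball_growth n
  refine ⟨GG, inferInstance, infinite_GG, ?_, two_pow, ⟨SS, closure_SS, fun n => ?_, fun n hn => ?_⟩,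
    fun T hT => ?_⟩
  · intro g hg
    by_contra hne
    obtain ⟨K, h1, h2, h3⟩ := rf_GG g hne
    exact h3 (hg K h1 ⟨h2⟩)
  · rw [wordGrowth, ball_eq closure_SS]
    exact hgr n
  · exact period_le closure_SS n _ (order_bound n hn)
  · obtain ⟨M, hM, hsub⟩ := compare (closure_SS) T
    have hper : ∀ n : ℕ, 1 ≤ n → (periodGrowth T n : ℝ) ≤ 48 * Real.sqrt M * Real.sqrt n := by
      intro n hn
      refine period_le hT n _ fun g hg => ?_
      have h1 := order_bound (M * n) (Nat.mul_pos hM hn) g (hsub n hg)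
      rw [Nat.cast_mul, Real.sqrt_mul (Nat.cast_nonneg M), ← mul_assoc] at h1
      exact h1
    refine ⟨?_, ⟨_, hper⟩, tendsto_of_sqrt _ _ hper⟩
    obtain ⟨L, hL, ht⟩ := growth (S := SS) hT (7 / 5) (by norm_num) hgr
    refine ⟨L, hL, ?_⟩
    refine ht.congr fun n => ?_
    rw [wordGrowth, ball_eq hT]

end Pool.Agent.Results.MP_166ce5_al.SqrtPeriodGrowth
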