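import Pool.Agent.Lib.MP_166ce5_al.FR.Final

/-!
An infinite, finitely generated, residually finite `2`-group of exponential word growth whose period
growth is bounded by `C 2 ^ (log* n)`, for every finite generating set: for every `d ≥ 2` and every
real `a < d` with `d` generators and at least `a ^ n` elements in the ball of radius `n`, for all
`n`. The group is not a wreath product: it is a quotient of the free group of rank `d` by power
relations, chosen with weights which are rescaled on a chain of iterated Frattini subgroups.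
-/

set_option autoImplicit false

namespace Pool.Agent.Results.MP_166ce5_al.TowerPeriodGrowth

open Filter Topology

/-- The word length `|g|_S`: the least length of a word in the letters `S ∪ S⁻¹` with value `g`. -/
noncomputable def wordLength {G : Type} [Group G] (S : Finset G) (g : G) : ℕ :=
  sInf {n : ℕ | ∃ l : List G, l.length = n ∧ (∀ x ∈ l, x ∈ S ∨ x⁻¹ ∈ S) ∧ l.prod = g}

/-- The ball `B_S(n)`. -/
def ball {G : Type} [Group G] (S : Finset G) (n : ℕ) : Set G := {g : G | wordLength S g ≤ n}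

/-- The word growth `γ_S(n) = |B_S(n)|`. -/
noncomputable def wordGrowth {G : Type} [Group G] (S : Finset G) (n : ℕ) : ℕ := (ball S n).ncard

/-- The period growth `π_S(n) = max {ord(g) : g ∈ B_S(n)}`. -/
noncomputable def periodGrowth {G : Type} [Group G] (S : Finset G) (n : ℕ) : ℕ :=
  sSup (orderOf '' ball S n)

/-- The intersection of the normal subgroups of finite index is trivial. -/
def ResiduallyFinite (G : Type) [Group G] : Prop :=
  ∀ g : G, (∀ N : Subgroup G, N.Normal → N.FiniteIndex → g ∈ N) → g = 1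

/-- The tower function: `1, 2, 4, 16, 65536, ..`. -/
def tower : ℕ → ℕ
  | 0 => 1
  | k + 1 => 2 ^ tower k

/-- `log* n`: the least `k` with `n ≤ tower k`. -/
noncomputable def logStar (n : ℕ) : ℕ := sInf {k : ℕ | n ≤ tower k}

/-- Elements which are values of words of length at most `n` -/
def wb {G : Type} [Group G] (S : Finset G) (n : ℕ) : Set G :=
  {g : G | ∃ l : List G, l.length ≤ n ∧ (∀ x ∈ l, x ∈ S ∨ x⁻¹ ∈ S) ∧ l.prod = g}

section General

variable {G : Type} [Group G] {S T : Finset G}

theorem exists_word (hS : Subgroup.closure (S : Set G) = ⊤) (g : G) :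
    ∃ l : List G, (∀ x ∈ l, x ∈ S ∨ x⁻¹ ∈ S) ∧ l.prod = g := by
  have h : g ∈ Subgroup.closure (S : Set G) := by rw [hS]; trivial
  have h' : g ∈ Submonoid.closure ((S : Set G) ∪ (S : Set G)⁻¹) := by
    rw [← Subgroup.closure_toSubmonoid]
    exact h
  obtain ⟨l, h1, h2⟩ := Submonoid.exists_list_of_mem_closure h'
  refine ⟨l, fun x hx => ?_, h2⟩
  rcases h1 x hx with h3 | h3
  · exact Or.inl h3
  · exact Or.inr (Set.mem_inv.1 h3)

theorem ball_eq (hS : Subgroup.closure (S : Set G) = ⊤) (n : ℕ) : ball S n = wb S n := by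
  ext g
  constructor
  · intro h
    obtain ⟨l, h1, h2⟩ := exists_word hS g
    obtain ⟨l', h3, h4, h5⟩ := Nat.sInf_mem
      (s := {n : ℕ | ∃ l : List G, l.length = n ∧ (∀ x ∈ l, x ∈ S ∨ x⁻¹ ∈ S) ∧ l.prod = g})
      ⟨l.length, l, rfl, h1, h2⟩
    exact ⟨l', h3.le.trans h, h4, h5⟩
  · rintro ⟨l, h1, h2, h3⟩
    have h4 : wordLength S g ≤ l.length := Nat.sInf_le ⟨l, rfl, h2, h3⟩
    exact h4.trans h1

theorem wb_mono {m n : ℕ} (h : m ≤ n) : wb S m ⊆ wb S n := by
  rintro g ⟨l, h1, h2, h3⟩
  exact ⟨l, h1.trans h, h2, h3⟩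

theorem one_mem (n : ℕ) : (1 : G) ∈ wb S n := ⟨[], by simp, by simp, rfl⟩

theorem mul_mem {m n : ℕ} {g h : G} (hg : g ∈ wb S m) (hh : h ∈ wb S n) : g * h ∈ wb S (m + n) := by
  obtain ⟨l, h1, h2, rfl⟩ := hg
  obtain ⟨l', h1', h2', rfl⟩ := hh
  refine ⟨l ++ l', by simp; omega, fun x hx => ?_, by simp⟩
  rcases List.mem_append.1 hx with h | h
  · exact h2 x h
  · exact h2' x h

theorem inv_mem {n : ℕ} {g : G} (hg : g ∈ wb S n) : g⁻¹ ∈ wb S n := by
  obtain ⟨l, h1, h2, rfl⟩ := hg
  refine ⟨(l.map (·⁻¹)).reverse, by simpa using h1, fun x hx => ?_, by rw [List.prod_inv_reverse]⟩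
  rw [List.mem_reverse, List.mem_map] at hx
  obtain ⟨y, hy, rfl⟩ := hx
  rcases h2 y hy with h | h
  · exact Or.inr (by rwa [inv_inv])
  · exact Or.inl h

theorem wb_add (m n : ℕ) : wb S (m + n) ⊆ (fun p : G × G => p.1 * p.2) '' (wb S m ×ˢ wb S n) := by
  rintro g ⟨l, h1, h2, rfl⟩
  refine ⟨((l.take m).prod, (l.drop m).prod),
    ⟨⟨l.take m, by simp, fun x hx => h2 x (List.mem_of_mem_take hx), rfl⟩,
      ⟨l.drop m, by simp; omega, fun x hx => h2 x (List.mem_of_mem_drop hx), rfl⟩⟩, ?_⟩
  change (l.take m).prod * (l.drop m).prod = l.prod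
  rw [← List.prod_append, List.take_append_drop]

theorem wb_finite (n : ℕ) : (wb S n).Finite := by
  induction n with
  | zero =>
    refine (Set.finite_singleton (1 : G)).subset ?_
    rintro g ⟨l, h1, -, rfl⟩
    have : l = [] := List.length_eq_zero_iff.1 (by omega)
    simp [this]
  | succ n ih =>
    have h1 : (wb S 1).Finite := by
      refine (((Set.finite_singleton (1 : G)).union (S.finite_toSet)).union
        (S.finite_toSet.image (·⁻¹))).subset ?_
      rintro g ⟨l, h1, h2, rfl⟩
      rcases l with _ | ⟨x, l⟩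
      · exact Or.inl (Or.inl rfl)
      · have : l = [] := List.length_eq_zero_iff.1 (by simpa using h1)
        subst this
        rcases h2 x (by simp) with h | h
        · exact Or.inl (Or.inr (by simpa using h))
        · exact Or.inr ⟨x⁻¹, h, by simp⟩
    exact ((ih.prod h1).image _).subset (wb_add n 1)

theorem card_add (m n : ℕ) : (wb S (m + n)).ncard ≤ (wb S m).ncard * (wb S n).ncard := by
  have h := ((wb_finite (S := S) m).prod (wb_finite (S := S) n))
  refine (Set.ncard_le_ncard (wb_add m n) (h.image _)).trans ((Set.ncard_image_le h).trans ?_)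
  rw [Set.ncard_prod]

theorem card_pos (n : ℕ) : 0 < (wb S n).ncard :=
  (Set.ncard_pos (wb_finite n)).2 ⟨1, one_mem n⟩

/-- comparison of two generating sets -/
theorem compare (hT : Subgroup.closure (T : Set G) = ⊤) (S : Finset G) :
    ∃ M : ℕ, 1 ≤ M ∧ ∀ n, wb S n ⊆ wb T (M * n) := by
  classical
  have h1 : ∀ s : G, ∃ m, s ∈ wb T m := by
    intro s
    obtain ⟨l, h2, h3⟩ := exists_word hT s
    exact ⟨l.length, l, le_rfl, h2, h3⟩
  choose f hf using h1
  refine ⟨S.sup f + 1, by omega, fun n => ?_⟩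
  rintro g ⟨l, h2, h3, rfl⟩
  have h4 : ∀ l : List G, (∀ x ∈ l, x ∈ S ∨ x⁻¹ ∈ S) → l.prod ∈ wb T ((S.sup f + 1) * l.length) := by
    intro l
    induction l with
    | nil => intro _; exact one_mem _
    | cons x l ih =>
      intro hx
      have h5 : x ∈ wb T (S.sup f + 1) := by
        rcases hx x (by simp) with h | h
        · exact wb_mono (by have := Finset.le_sup (f := f) h; omega) (hf x)
        · have h6 := inv_mem (wb_mono (by have := Finset.le_sup (f := f) h; omega) (hf x⁻¹) :
            x⁻¹ ∈ wb T (S.sup f + 1))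
          rwa [inv_inv] at h6
      have h6 := mul_mem h5 (ih fun y hy => hx y (by simp [hy]))
      rw [List.prod_cons, List.length_cons, mul_add, mul_one, add_comm]
      exact h6
  exact wb_mono (Nat.mul_le_mul_left _ h2) (h4 l h3)

theorem subadd : Subadditive (fun n => Real.log ((wb S n).ncard : ℝ)) := by
  intro m n
  have h1 : (0 : ℝ) < ((wb S m).ncard : ℝ) := by exact_mod_cast card_pos m
  have h2 : (0 : ℝ) < ((wb S n).ncard : ℝ) := by exact_mod_cast card_pos n
  have h3 : (0 : ℝ) < ((wb S (m + n)).ncard : ℝ) := by exact_mod_cast card_pos (m + n)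
  rw [← Real.log_mul h1.ne' h2.ne']
  apply Real.log_le_log h3
  exact_mod_cast card_add m n

theorem log_nonneg (n : ℕ) : 0 ≤ Real.log ((wb S n).ncard : ℝ) := by
  apply Real.log_nonneg
  exact_mod_cast card_pos n

theorem exists_limit : ∃ u : ℝ,
    Tendsto (fun n : ℕ => Real.log ((wb S n).ncard : ℝ) / n) atTop (𝓝 u) := by
  refine ⟨_, (subadd (S := S)).tendsto_lim ⟨0, ?_⟩⟩
  rintro _ ⟨n, rfl⟩
  exact div_nonneg (log_nonneg n) (Nat.cast_nonneg n)

theorem root_eq (n : ℕ) : ((wb S n).ncard : ℝ) ^ (1 / (n : ℝ)) =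
    Real.exp (Real.log ((wb S n).ncard : ℝ) / n) := by
  have h2 : (0 : ℝ) < ((wb S n).ncard : ℝ) := by exact_mod_cast card_pos n
  rw [Real.rpow_def_of_pos h2]
  congr 1
  ring

/-- exponential growth for one generating set implies it for every other one -/
theorem growth (hT : Subgroup.closure (T : Set G) = ⊤) (c : ℝ) (hc : 1 < c)
    (h : ∀ n : ℕ, c ^ n ≤ ((wb S n).ncard : ℝ)) :
    ∃ L : ℝ, 1 < L ∧ Tendsto (fun n : ℕ => ((wb T n).ncard : ℝ) ^ (1 / (n : ℝ))) atTop (𝓝 L) := by
  obtain ⟨M, hM, hsub⟩ := compare hT S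
  obtain ⟨u, hu⟩ := exists_limit (S := T)
  have hM0 : (0 : ℝ) < M := by
    have : (1 : ℝ) ≤ M := by exact_mod_cast hM
    linarith
  have hlow : Real.log c / M ≤ u := by
    have h1 : Tendsto (fun k : ℕ => M * k) atTop atTop :=
      tendsto_id.const_mul_atTop' (by omega)
    refine ge_of_tendsto (hu.comp h1) (eventually_atTop.2 ⟨1, fun k hk => ?_⟩)
    have hk0 : (0 : ℝ) < k := by
      have : (1 : ℝ) ≤ k := by exact_mod_cast hk
      linarith
    have h2 : Real.log (c ^ k) ≤ Real.log ((wb T (M * k)).ncard : ℝ) := by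
      apply Real.log_le_log (by positivity)
      refine (h k).trans ?_
      exact_mod_cast Set.ncard_le_ncard (hsub k) (wb_finite _)
    rw [Real.log_pow] at h2
    simp only [Function.comp]
    rw [div_le_div_iff₀ hM0 (by push_cast; positivity)]
    push_cast
    calc Real.log c * (M * k) = (k * Real.log c) * M := by ring
      _ ≤ Real.log ((wb T (M * k)).ncard : ℝ) * M := mul_le_mul_of_nonneg_right h2 hM0.le
  refine ⟨Real.exp u, ?_, ?_⟩
  · have h1 : 0 < Real.log c / M := div_pos (Real.log_pos hc) hM0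
    exact Real.one_lt_exp_iff.2 (lt_of_lt_of_le h1 hlow)
  · have h1 := (Real.continuous_exp.tendsto u).comp hu
    refine h1.congr fun n => ?_
    rw [Function.comp_apply, root_eq]

end General

theorem period_le {G : Type} [Group G] {T : Finset G} (hT : Subgroup.closure (T : Set G) = ⊤)
    (n : ℕ) (B : ℝ) (hB : ∀ g ∈ wb T n, (orderOf g : ℝ) ≤ B) : (periodGrowth T n : ℝ) ≤ B := by
  have hne : (orderOf '' ball T n).Nonempty := by
    rw [ball_eq hT]
    exact ⟨_, 1, one_mem n, rfl⟩
  have hbdd : BddAbove (orderOf '' ball T n) := by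
    rw [ball_eq hT]
    exact ((wb_finite n).image _).bddAbove
  obtain ⟨g, hg, he⟩ := Nat.sSup_mem hne hbdd
  rw [ball_eq hT] at hg
  have h1 := hB g hg
  rw [he] at h1
  exact h1


theorem tower_eq : ∀ k, tower k = Pool.Agent.Lib.MP166ce5.FR.tower k
  | 0 => rfl
  | k + 1 => by
    rw [tower, Pool.Agent.Lib.MP166ce5.FR.tower, tower_eq k]

theorem two_mul_le_two_pow (x : ℕ) (hx : 1 ≤ x) : 2 * x ≤ 2 ^ x := by
  induction x, hx using Nat.le_induction with
  | base => norm_num
  | succ n hn ih =>
    rw [pow_succ]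
    omega

theorem tower_pos (k : ℕ) : 1 ≤ tower k := by
  cases k with
  | zero => exact le_rfl
  | succ k => exact Nat.one_le_two_pow

theorem two_mul_tower (k : ℕ) : 2 * tower k ≤ tower (k + 1) :=
  two_mul_le_two_pow _ (tower_pos k)

theorem tower_add (k : ℕ) : ∀ M : ℕ, 2 ^ M * tower k ≤ tower (k + M)
  | 0 => by simp
  | M + 1 => by
    have h1 := tower_add k M
    have h2 := two_mul_tower (k + M)
    rw [pow_succ]
    calc 2 ^ M * 2 * tower k = 2 * (2 ^ M * tower k) := by ring
      _ ≤ 2 * tower (k + M) := Nat.mul_le_mul_left _ h1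
      _ ≤ tower (k + (M + 1)) := h2

theorem le_tower (n : ℕ) : n ≤ tower n := by
  have h1 := tower_add 0 n
  rw [zero_add] at h1
  have h2 : n ≤ 2 ^ n := Nat.lt_two_pow_self.le
  have h3 : tower 0 = 1 := rfl
  rw [h3, mul_one] at h1
  omega

theorem le_tower_logStar (n : ℕ) : n ≤ tower (logStar n) :=
  Nat.sInf_mem (s := {k : ℕ | n ≤ tower k}) ⟨n, le_tower n⟩

theorem tower_lt {n k : ℕ} (h : k < logStar n) : tower k < n := by
  have := Nat.notMem_of_lt_sInf h
  simpa using this

/-- `2 ^ (log* n) / n` tends to zero -/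
theorem tendsto_logStar (f : ℕ → ℕ) (c : ℕ) (h : ∀ n, (f n : ℝ) ≤ (2 : ℝ) ^ (logStar n + c)) :
    Tendsto (fun n : ℕ => (f n : ℝ) / n) atTop (𝓝 0) := by
  -- `4 ^ k ≤ 4 * tower (k + 1)`
  have h4 : ∀ k, 4 ^ k ≤ 4 * tower (k + 1) := by
    intro k
    induction k with
    | zero => have := tower_pos (0 + 1); rw [pow_zero]; omega
    | succ k ih =>
      -- `tower (k + 2) = 2 ^ tower (k + 1)`, `2 ^ x ≥ 4 x` for `x ≥ 4`
      rcases Nat.lt_or_ge k 1 with hk | hk
      · have : k = 0 := by omega
        subst this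
        have h5 : tower (0 + 1 + 1) = 4 := rfl
        rw [h5]
        norm_num
      · have h5 : 4 ≤ tower (k + 1) := by
          have h6 := tower_add 2 (k - 1)
          have h7 : 2 + (k - 1) = k + 1 := by omega
          rw [h7] at h6
          have h8 : tower 2 = 4 := rfl
          rw [h8] at h6
          have h9 := Nat.one_le_two_pow (n := k - 1)
          nlinarith
        have h6 : ∀ x, 4 ≤ x → 4 * x ≤ 2 ^ x := by
          intro x hx
          induction x, hx using Nat.le_induction with
          | base => norm_num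
          | succ n hn ih => rw [pow_succ]; omega
        have h7 := h6 _ h5
        have h8 : tower (k + 1 + 1) = 2 ^ tower (k + 1) := rfl
        rw [h8, pow_succ]
        omega
  -- `f n / n ≤ C / 2 ^ (logStar n)`
  have hC : ∀ n : ℕ, 1 ≤ n → (f n : ℝ) / n ≤ (2 : ℝ) ^ (c + 6) / (2 : ℝ) ^ logStar n := by
    intro n hn
    have hn0 : (0 : ℝ) < n := by
      have : (1 : ℝ) ≤ n := by exact_mod_cast hn
      linarith
    rw [div_le_div_iff₀ hn0 (by positivity)]
    have h1 : (4 : ℝ) ^ logStar n ≤ 64 * n := by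
      rcases Nat.lt_or_ge (logStar n) 2 with h2 | h2
      · have h3 : (4 : ℝ) ^ logStar n ≤ 4 ^ 1 := pow_le_pow_right₀ (by norm_num) (by omega)
        have h5 : (1 : ℝ) ≤ n := by exact_mod_cast hn
        linarith
      · obtain ⟨k, hk⟩ : ∃ k, logStar n = k + 2 := ⟨logStar n - 2, by omega⟩
        have h3 : tower (k + 1) < n := tower_lt (by omega)
        have h5 := h4 k
        have h6 : 4 ^ logStar n ≤ 64 * n := by
          rw [hk, pow_add]
          omega
        exact_mod_cast h6
    calc (f n : ℝ) * 2 ^ logStar n ≤ 2 ^ (logStar n + c) * 2 ^ logStar n :=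
          mul_le_mul_of_nonneg_right (h n) (by positivity)
      _ = 2 ^ c * 4 ^ logStar n := by
          rw [pow_add, show (4 : ℝ) = 2 * 2 by norm_num, mul_pow]; ring
      _ ≤ 2 ^ c * (64 * n) := mul_le_mul_of_nonneg_left h1 (by positivity)
      _ = 2 ^ (c + 6) * n := by rw [pow_add]; ring
  have hl : Tendsto logStar atTop atTop := by
    refine tendsto_atTop.2 fun b => ?_
    filter_upwards [eventually_gt_atTop (tower b)] with n hn
    by_contra hlt
    have h1 := le_tower_logStar n
    have h2 : tower (logStar n) ≤ tower b := by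
      have h3 := tower_add (logStar n) (b - logStar n)
      have h5 : logStar n + (b - logStar n) = b := by omega
      rw [h5] at h3
      exact le_trans (Nat.le_mul_of_pos_left _ (by positivity)) h3
    omega
  have h1 : Tendsto (fun n : ℕ => (2 : ℝ) ^ (c + 6) / (2 : ℝ) ^ logStar n) atTop (𝓝 0) := by
    have h2 : Tendsto (fun k : ℕ => (2 : ℝ) ^ k) atTop atTop :=
      tendsto_pow_atTop_atTop_of_one_lt (by norm_num)
    exact (h2.comp hl).const_div_atTop _
  exact tendsto_of_tendsto_of_tendsto_of_le_of_le' tendsto_const_nhds h1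
    (Eventually.of_forall fun n => by positivity) (eventually_atTop.2 ⟨1, fun n hn => hC n hn⟩)

open Pool.Agent.Lib.MP166ce5.FR in
/-- words in the generators `x i` and words in the letters of the finite set of the `x i` -/
theorem image_Len {G : Type} [Group G] [DecidableEq G] {d : ℕ} (x : Fin d → G) (n : ℕ) :
    FreeGroup.lift x '' Len n = wb (Finset.univ.image x) n := by
  ext g
  constructor
  · rintro ⟨_, ⟨L, hL, rfl⟩, rfl⟩
    rw [FreeGroup.lift_mk]
    refine ⟨_, by simpa using hL, fun y hy => ?_, rfl⟩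
    rw [List.mem_map] at hy
    obtain ⟨⟨i, b⟩, -, rfl⟩ := hy
    cases b
    · right
      simp
    · left
      simp
  · rintro ⟨l, h1, h2, rfl⟩
    have h3 : ∀ l : List G, (∀ y ∈ l, y ∈ Finset.univ.image x ∨ y⁻¹ ∈ Finset.univ.image x) →
        ∃ L : List (Fin d × Bool), L.length = l.length ∧
          FreeGroup.lift x (FreeGroup.mk L) = l.prod := by
      intro l
      induction l with
      | nil => intro _; exact ⟨[], rfl, by simp⟩
      | cons y l ih =>
        intro hy
        obtain ⟨L, hL1, hL2⟩ := ih fun z hz => hy z (by simp [hz])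
        rcases hy y (by simp) with h | h
        · obtain ⟨i, -, hi⟩ := Finset.mem_image.1 h
          refine ⟨(i, true) :: L, by simp [hL1], ?_⟩
          rw [FreeGroup.lift_mk] at hL2 ⊢
          rw [List.map_cons, List.prod_cons, hL2, List.prod_cons, ← hi]
          simp
        · obtain ⟨i, -, hi⟩ := Finset.mem_image.1 h
          refine ⟨(i, false) :: L, by simp [hL1], ?_⟩
          rw [FreeGroup.lift_mk] at hL2 ⊢
          rw [List.map_cons, List.prod_cons, hL2, List.prod_cons, ← inv_inv y, ← hi]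
          simp
    obtain ⟨L, hL1, hL2⟩ := h3 l h2
    exact ⟨_, ⟨L, by omega, rfl⟩, hL2⟩

/-- every element has bounded order dividing a power of two: bound for the period growth -/
theorem period_bound {G : Type} [Group G] {T : Finset G}
    (hT : Subgroup.closure (T : Set G) = ⊤) (c : ℕ)
    (h : ∀ k, ∀ g ∈ wb T (tower k), g ^ 2 ^ (k + c) = 1) (n : ℕ) :
    (periodGrowth T n : ℝ) ≤ (2 : ℝ) ^ (logStar n + c) := by
  refine period_le hT n _ fun g hg => ?_
  have h1 := h (logStar n) g (wb_mono (le_tower_logStar n) hg)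
  have h2 := Nat.le_of_dvd (by positivity) (orderOf_dvd_of_pow_eq_one h1)
  exact_mod_cast h2

/-- Answer to the question, and a stronger form: for every `d ≥ 2` and every real `a < d` there is an
infinite residually finite 2-group generated by at most `d` elements, with at least `a ^ n` elements
of length at most `n` for all `n`, whose period growth is sublinear, and even at most
`2 ^ (log* n + c)`, for every finite generating set. -/
theorem result :
    ∀ (d : ℕ) (a : ℝ), 2 ≤ d → 1 < a → a < d → ∃ (G : Type) (_ : Group G),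
      Infinite G ∧ ResiduallyFinite G ∧ (∀ g : G, ∃ k : ℕ, orderOf g = 2 ^ k) ∧
      (∃ S : Finset G, S.card ≤ d ∧ Subgroup.closure (S : Set G) = ⊤ ∧
        (∀ n : ℕ, a ^ n ≤ (wordGrowth S n : ℝ))) ∧
      ∀ T : Finset G, Subgroup.closure (T : Set G) = ⊤ →
        (∃ L : ℝ, 1 < L ∧
          Tendsto (fun n : ℕ => (wordGrowth T n : ℝ) ^ (1 / (n : ℝ))) atTop (𝓝 L)) ∧
        Tendsto (fun n : ℕ => (periodGrowth T n : ℝ) / n) atTop (𝓝 0) ∧
        ∃ c : ℕ, ∀ n : ℕ, periodGrowth T n ≤ 2 ^ (logStar n + c) := by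
  classical
  intro d a hd ha1 ha2
  obtain ⟨G, _, x, c, hx, hinf, hrf, hgr, htor⟩ :=
    Pool.Agent.Lib.MP166ce5.FR.mainFR d a hd ha1 ha2
  have hS : Subgroup.closure ((Finset.univ.image x : Finset G) : Set G) = ⊤ := by
    rw [Finset.coe_image, Finset.coe_univ, Set.image_univ, hx]
  have hgr' : ∀ n : ℕ, a ^ n ≤ ((wb (Finset.univ.image x) n).ncard : ℝ) := by
    intro n
    rw [← image_Len]
    exact hgr n
  have htor' : ∀ k, ∀ g ∈ wb (Finset.univ.image x) (tower k), g ^ 2 ^ (k + c) = 1 := by
    intro k g hg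
    rw [← image_Len, tower_eq] at hg
    exact htor k g hg
  refine ⟨G, inferInstance, hinf, ?_, ?_, ⟨Finset.univ.image x, ?_, hS, fun n => ?_⟩, fun T hT => ?_⟩
  · intro g hg
    by_contra hne
    obtain ⟨K, h1, h2, h3⟩ := hrf g hne
    exact h3 (hg K h1 h2)
  · intro g
    obtain ⟨l, h1, h2⟩ := exists_word hS g
    have h3 : g ∈ wb (Finset.univ.image x) (tower l.length) := ⟨l, le_tower _, h1, h2⟩
    have h4 := orderOf_dvd_of_pow_eq_one (htor' _ g h3)
    obtain ⟨j, -, hj⟩ := (Nat.dvd_prime_pow Nat.prime_two).1 h4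
    exact ⟨j, hj⟩
  · exact Finset.card_image_le.trans (by simp)
  · rw [wordGrowth, ball_eq hS]
    exact hgr' n
  · obtain ⟨M, hM, hsub⟩ := compare hS T
    have htorT : ∀ k, ∀ g ∈ wb T (tower k), g ^ 2 ^ (k + (M + c)) = 1 := by
      intro k g hg
      have h1 := hsub _ hg
      have h2 : M * tower k ≤ tower (k + M) :=
        (Nat.mul_le_mul_right _ Nat.lt_two_pow_self.le).trans (tower_add k M)
      have h3 := htor' (k + M) g (wb_mono h2 h1)
      rwa [add_assoc] at h3
    have hper := period_bound hT (M + c) htorT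
    refine ⟨?_, tendsto_logStar _ _ hper, ⟨M + c, fun n => ?_⟩⟩
    · obtain ⟨L, hL, ht⟩ := growth (S := Finset.univ.image x) hT a ha1 hgr'
      refine ⟨L, hL, ?_⟩
      refine ht.congr fun n => ?_
      rw [wordGrowth, ball_eq hT]
    · exact_mod_cast hper n

end Pool.Agent.Results.MP_166ce5_al.TowerPeriodGrowth
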